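import Pool.Agent.Lib.MP_240d5c_lc.ForceMain
import Pool.Agent.Lib.MP_240d5c_lc.K6

set_option autoImplicit false

/-!
# Maximal chains of projections in the Calkin algebra in the Cohen model

The negated form of the question: it is consistent with ZFC that CH fails and any two maximal
chains of projections in the Calkin algebra are order-isomorphic.

A statement about the extension by a poset `P` is given by its truth value, the predicate on `P`
which says which conditions force it.  The predicates `fNot`, `fImp`, `fAnd`, `fAll`, `fEx` are the
clauses of the forcing relation; `FunName` is the type of names of functions between ground model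
sets.

* Start with any model of ZFC, and let `Ω₁` be a well-order of type `ω₁` in it.  By part (1), the
  countable partial functions from `Ω₁` to the reals force CH.
* Work in this extension, with well-orders `Ω₁` and `Ω₂` of type `ω₁` and `ω₂`, and add `Ω₂` many
  Cohen reals.  By part (2), the extension satisfies `CohenPrinciple`.
* By part (3), a theorem of ZFC applied in the last model, CH fails there and any two maximal chains
  of projections in the Calkin algebra are isomorphic.
-/

namespace Pool.Agent.Results.MP_240d5c_lc.CohenChains

open Cardinal Order Pool.Agent.KM Pool.Agent.CPr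

/-- (1) The countable partial functions from an uncountable set `Ω` to the reals force CH (every
real is one of `|Ω|` many, for `Ω` of type `ω₁`).
(2) If CH holds, the finite partial functions from a well-order of type `ω₂` to `{0, 1}` force the
Cohen filtration principle.
(3) The Cohen filtration principle implies that CH fails and that for every separable
infinite-dimensional complex Hilbert space any two maximal chains of projections in the Calkin
algebra are order-isomorphic. -/
theorem result :
    (∀ Ω : Type, ℵ₀ < #Ω → ∀ p : Fn ℵ₁ Ω (ℕ → Bool), fCH (Fn ℵ₁ Ω (ℕ → Bool)) Ω p) ∧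
    (Cardinal.continuum = Cardinal.aleph 1 →
      ∀ (Ω₁ Ω₂ : Type) [LinearOrder Ω₁] [WellFoundedLT Ω₁] [LinearOrder Ω₂] [WellFoundedLT Ω₂],
        Ordinal.type (fun a b : Ω₁ => a < b) = (ℵ₁).ord →
        Ordinal.type (fun a b : Ω₂ => a < b) = (ℵ_ 2).ord →
        ∀ p : Fn ℵ₀ Ω₂ Bool, fCohenPrinciple (Fn ℵ₀ Ω₂ Bool) Ω₁ Ω₂ p) ∧
    (CohenPrinciple → Cardinal.continuum ≠ Cardinal.aleph 1 ∧ AllMaximalChainsIso) := by
  refine ⟨fun Ω hΩ p => fCH_collapse hΩ p, ?_, fun h => ⟨?_, allMaximalChainsIso h⟩⟩
  · intro hCH Ω₁ Ω₂ _ _ _ _ h₁ h₂ p
    exact fCohenPrinciple_cohen hCH h₁ h₂ p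
  · obtain ⟨Ω₁, Ω₂, _, _, _, _, e, he⟩ := h
    exact not_CH he

end Pool.Agent.Results.MP_240d5c_lc.CohenChains
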